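import Mathlib

set_option autoImplicit false

/-!
# MP_159373_co (helper64): orthogonal arrays of index one
-/

namespace Pool.Agent.Helper64.OA

/-- there is an orthogonal array `(q^k, n, q, k)` of index one: rows `r : Fin (q^k)`, columns
`i : Fin n`, symbols `Fin q`; for every set `T` of `k` columns each word on `T` is the restriction
to `T` of exactly one row -/
def HasOA (q n k : ℕ) : Prop :=
  ∃ A : Fin (q ^ k) → Fin n → Fin q, ∀ T : Finset (Fin n), T.card = k →
    ∀ v : Fin n → Fin q, ∃! r, ∀ i ∈ T, A r i = v i

end Pool.Agent.Helper64.OA
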