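import Pool.Agent.Helper64.OA.Upper
import Pool.Agent.Helper64.OA.Defs

set_option autoImplicit false
set_option linter.unusedSectionVars false

/-!
# MP_159373_co (helper64): constructions
-/

namespace Pool.Agent.Helper64.OA

open Finset

theorem card_rows {R I S : Type} [Fintype R] [Fintype I] [DecidableEq I] [Fintype S]
    [Nonempty S] {k : ℕ} {A : R → I → S} (hA : Arr k A) (hk : k ≤ Fintype.card I) :
    Fintype.card R = Fintype.card S ^ k := by
  classical
  obtain ⟨T, _, hT⟩ := exists_subset_card_eq (show k ≤ (univ : Finset I).card by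
    rw [card_univ]; exact hk)
  have hbij : Function.Bijective (fun (r : R) (i : T) => A r i) := by
    constructor
    · intro r r' h
      have h' : ∀ i ∈ T, A r i = A r' i := fun i hi => congrFun h ⟨i, hi⟩
      exact (hA T hT (A r')).unique h' (fun i _ => rfl)
    · intro g
      obtain ⟨r, hr⟩ := (hA T hT (fun i => if h : i ∈ T then g ⟨i, h⟩ else
        Classical.arbitrary S)).exists
      refine ⟨r, ?_⟩
      funext i
      have := hr i.1 i.2
      rw [dif_pos i.2] at this
      exact this
  rw [Fintype.card_of_bijective hbij, Fintype.card_fun, Fintype.card_coe, hT]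

theorem hasOA_of_arr {R I S : Type} [Fintype R] [Fintype I] [DecidableEq I] [Fintype S]
    [Nonempty S] {k : ℕ} {A : R → I → S} (hA : Arr k A) (hk : k ≤ Fintype.card I) :
    HasOA (Fintype.card S) (Fintype.card I) k := by
  classical
  have hc := card_rows hA hk
  let eR : Fin (Fintype.card S ^ k) ≃ R := Fintype.equivOfCardEq (by simp [hc])
  let eI : Fin (Fintype.card I) ≃ I := (Fintype.equivFin I).symm
  let eS : Fin (Fintype.card S) ≃ S := (Fintype.equivFin S).symm
  refine ⟨fun r i => eS.symm (A (eR r) (eI i)), fun T hT v => ?_⟩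
  obtain ⟨r, hr, hu⟩ := hA (T.map eI.toEmbedding) (by rw [card_map, hT])
    (fun i => eS (v (eI.symm i)))
  refine ⟨eR.symm r, ?_, ?_⟩
  · intro i hi
    have h1 := hr (eI i) (mem_map.mpr ⟨i, hi, rfl⟩)
    show eS.symm (A (eR (eR.symm r)) (eI i)) = v i
    rw [eR.apply_symm_apply, h1, eI.symm_apply_apply, eS.symm_apply_apply]
  · intro r' hr'
    have h2 : eR r' = r := by
      refine hu _ ?_
      intro i hi
      obtain ⟨j, hj, rfl⟩ := mem_map.mp hi
      have h3 := hr' j hj
      have h4 : A (eR r') (eI j) = eS (v j) := by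
        have h5 := congrArg eS h3
        rwa [eS.apply_symm_apply] at h5
      show A (eR r') (eI j) = eS (v (eI.symm (eI j)))
      rw [eI.symm_apply_apply, h4]
    rw [← h2, eR.symm_apply_apply]

theorem arr_of_hasOA {q n k : ℕ} (h : HasOA q n k) {n' : ℕ} (hn : n' ≤ n) (hq : 0 < q) :
    ∃ A : Fin (q ^ k) → Fin n' → Fin q, Arr k A := by
  obtain ⟨A, hA⟩ := h
  refine ⟨fun r i => A r (Fin.castLE hn i), fun T hT v => ?_⟩
  have hinj := Fin.castLE_injective hn
  obtain ⟨r, hr, hu⟩ := hA (T.map ⟨Fin.castLE hn, hinj⟩) (by rw [card_map, hT])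
    (fun i => if h : (i : ℕ) < n' then v ⟨i, h⟩ else ⟨0, hq⟩)
  refine ⟨r, ?_, ?_⟩
  · intro i hi
    have h1 := hr (Fin.castLE hn i) (mem_map.mpr ⟨i, hi, rfl⟩)
    show A r (Fin.castLE hn i) = v i
    rw [h1, dif_pos (show ((Fin.castLE hn i : Fin n) : ℕ) < n' from i.2)]
    rfl
  · intro r' hr'
    refine hu r' ?_
    intro i hi
    obtain ⟨j, hj, rfl⟩ := mem_map.mp hi
    have h3 := hr' j hj
    have h3' : A r' (Fin.castLE hn j) = v j := h3
    show A r' (Fin.castLE hn j) = _
    rw [h3']
    show v j = if h : ((Fin.castLE hn j : Fin n) : ℕ) < n' then v ⟨_, h⟩ else ⟨0, hq⟩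
    rw [dif_pos (show ((Fin.castLE hn j : Fin n) : ℕ) < n' from j.2)]
    rfl

section check
variable {F : Type} [Field F] [Fintype F] [DecidableEq F] {ι : Type} [Fintype ι] [DecidableEq ι]
  {r : ℕ}

/-- the code with check columns `H i` -/
def Code (H : ι → Fin r → F) : Type := {c : ι → F // ∀ t, ∑ i, c i * H i t = 0}

theorem arr_of_check (H : ι → Fin r → F)
    (hH : ∀ U : Finset ι, U.card = r → ∀ w : Fin r → F,
      (∀ i ∈ U, ∑ t, w t * H i t = 0) → w = 0) {k : ℕ} (hk : k + r = Fintype.card ι) :
    Arr k (fun (c : Code H) (i : ι) => c.1 i) := by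
  classical
  intro T hT v
  have hU : Tᶜ.card = r := by rw [card_compl, hT]; omega
  let e : Fin r ≃ {i // i ∈ Tᶜ} := (Fintype.equivOfCardEq (by
    rw [Fintype.card_fin, Fintype.card_coe, hU]))
  let M : Matrix (Fin r) (Fin r) F := Matrix.of (fun a t => H (e a) t)
  have hinj : Function.Injective M.mulVec := by
    intro w w' hw
    have h1 : w - w' = 0 := by
      refine hH _ hU (w - w') ?_
      intro i hi
      have h2 := congrFun hw (e.symm ⟨i, hi⟩)
      simp only [Matrix.mulVec, dotProduct, M, Matrix.of_apply, Equiv.apply_symm_apply] at h2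
      simp only [Pi.sub_apply, sub_mul, sum_sub_distrib]
      rw [sub_eq_zero]
      calc ∑ t, w t * H i t = ∑ t, H i t * w t := sum_congr rfl (fun t _ => mul_comm _ _)
        _ = ∑ t, H i t * w' t := h2
        _ = ∑ t, w' t * H i t := sum_congr rfl (fun t _ => mul_comm _ _)
    exact sub_eq_zero.mp h1
  have hunit : IsUnit M := Matrix.mulVec_injective_iff_isUnit.mp hinj
  have hsurj : Function.Surjective M.vecMul := Matrix.vecMul_surjective_iff_isUnit.mpr hunit
  have hvinj : Function.Injective M.vecMul := Matrix.vecMul_injective_iff_isUnit.mpr hunit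
  have hsplit : ∀ (c : ι → F) (t : Fin r), ∑ i, c i * H i t =
      ∑ i ∈ T, c i * H i t + (M.vecMul (fun a => c (e a))) t := by
    intro c t
    rw [← sum_add_sum_compl T]
    congr 1
    have h1 : (M.vecMul (fun a => c (e a))) t = ∑ a : Fin r, c (e a) * H (e a) t := by
      simp only [Matrix.vecMul, dotProduct, M, Matrix.of_apply]
    rw [h1, ← sum_coe_sort (s := Tᶜ) (f := fun i => c i * H i t)]
    exact (e.sum_comp (fun i : {i // i ∈ Tᶜ} => c i * H i t)).symm
  refine existsUnique_of_exists_of_unique ?_ ?_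
  · obtain ⟨u, hu⟩ := hsurj (fun t => -∑ i ∈ T, v i * H i t)
    let c : ι → F := fun i => if h : i ∈ Tᶜ then u (e.symm ⟨i, h⟩) else v i
    have hcT : ∀ i ∈ T, c i = v i := by
      intro i hi
      have : i ∉ Tᶜ := fun h => (mem_compl.mp h) hi
      simp only [c, dif_neg this]
    have hce : (fun a => c (e a)) = u := by
      funext a
      have : ((e a : {i // i ∈ Tᶜ}) : ι) ∈ Tᶜ := (e a).2
      simp only [c, dif_pos this, Subtype.coe_eta, Equiv.symm_apply_apply]
    refine ⟨⟨c, ?_⟩, hcT⟩
    intro t
    have hu' : M.vecMul u t = -∑ i ∈ T, v i * H i t := congrFun hu t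
    rw [hsplit, hce, hu', sum_congr rfl (fun i hi => by rw [hcT i hi])]
    exact add_neg_cancel _
  · intro c c' hc hc'
    apply Subtype.ext
    have h1 : (fun a => c.1 (e a)) = fun a => c'.1 (e a) := by
      apply hvinj
      funext t
      have e1 := c.2 t
      have e2 := c'.2 t
      rw [hsplit] at e1 e2
      have e3 : ∑ i ∈ T, c.1 i * H i t = ∑ i ∈ T, c'.1 i * H i t :=
        sum_congr rfl (fun i hi => by
          have h3 : c.1 i = v i := hc i hi
          have h4 : c'.1 i = v i := hc' i hi
          rw [h3, h4])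
      rw [e3] at e1
      exact add_left_cancel (e1.trans e2.symm)
    funext i
    by_cases hi : i ∈ T
    · have h3 : c.1 i = v i := hc i hi
      have h4 : c'.1 i = v i := hc' i hi
      rw [h3, h4]
    · have h3 := congrFun h1 (e.symm ⟨i, mem_compl.mpr hi⟩)
      simpa using h3

theorem hasOA_of_check (H : ι → Fin r → F)
    (hH : ∀ U : Finset ι, U.card = r → ∀ w : Fin r → F,
      (∀ i ∈ U, ∑ t, w t * H i t = 0) → w = 0) {k : ℕ} (hk : k + r = Fintype.card ι) :
    HasOA (Fintype.card F) (Fintype.card ι) k := by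
  classical
  have : Fintype (Code H) := inferInstanceAs
    (Fintype {c : ι → F // ∀ t, ∑ i, c i * H i t = 0})
  exact hasOA_of_arr (arr_of_check H hH hk) (by omega)

end check

section columns
variable {F : Type} [Field F] [Fintype F] [DecidableEq F]

/-- columns `(1,t)`, `(0,1)` -/
def col2 : Option F → Fin 2 → F
  | none => ![0, 1]
  | some t => ![1, t]

/-- columns `(1,t,t²)`, `(0,0,1)` -/
def col3 : Option F → Fin 3 → F
  | none => ![0, 0, 1]
  | some t => ![1, t, t ^ 2]

/-- columns `(1,t,t²)`, `(0,0,1)`, `(0,1,0)` -/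
def col4 : Option (Option F) → Fin 3 → F
  | none => ![0, 1, 0]
  | some x => col3 x

theorem lin2 {a b w0 w1 : F} (hab : a ≠ b) (ha : w0 + w1 * a = 0) (hb : w0 + w1 * b = 0) :
    w0 = 0 ∧ w1 = 0 := by
  have h1 : w1 * (a - b) = 0 := by linear_combination ha - hb
  have h2 : w1 = 0 := (mul_eq_zero.mp h1).resolve_right (sub_ne_zero.mpr hab)
  exact ⟨by rw [h2] at ha; linear_combination ha, h2⟩

theorem oa2 : HasOA (Fintype.card F) (Fintype.card F + 1) (Fintype.card F - 1) := by
  have h1 : 0 < Fintype.card F := Fintype.card_pos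
  have h := hasOA_of_check (F := F) (ι := Option F) (r := 2) (k := Fintype.card F - 1) col2 ?_
    (by rw [Fintype.card_option]; omega)
  · rwa [Fintype.card_option] at h
  · intro U hU w hw
    obtain ⟨x, y, hxy, rfl⟩ := card_eq_two.mp hU
    have hx := hw x (by simp)
    have hy := hw y (by simp)
    rw [Fin.sum_univ_two] at hx hy
    have key : w 0 = 0 ∧ w 1 = 0 := by
      rcases x with _ | a <;> rcases y with _ | b
      · exact absurd rfl hxy
      · simp only [col2, Matrix.cons_val_zero, Matrix.cons_val_one, mul_zero, mul_one,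
          zero_add] at hx hy
        rw [hx] at hy
        exact ⟨by linear_combination hy, hx⟩
      · simp only [col2, Matrix.cons_val_zero, Matrix.cons_val_one, mul_zero, mul_one,
          zero_add] at hx hy
        rw [hy] at hx
        exact ⟨by linear_combination hx, hy⟩
      · simp only [col2, Matrix.cons_val_zero, Matrix.cons_val_one, mul_one] at hx hy
        exact lin2 (fun h => hxy (by rw [h])) hx hy
    funext t
    fin_cases t
    · exact key.1
    · exact key.2

theorem q_none (w : Fin 3 → F) : ∑ t, w t * col3 (none : Option F) t = w 2 := by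
  rw [Fin.sum_univ_three]; simp [col3]

theorem q_some (w : Fin 3 → F) (a : F) :
    ∑ t, w t * col3 (some a) t = w 0 + w 1 * a + w 2 * a ^ 2 := by
  rw [Fin.sum_univ_three]; simp [col3]

theorem q_hyp (w : Fin 3 → F) : ∑ t, w t * col4 (none : Option (Option F)) t = w 1 := by
  rw [Fin.sum_univ_three]; simp [col4]

theorem quad3 {a b c w0 w1 w2 : F} (hab : a ≠ b) (hac : a ≠ c) (hbc : b ≠ c)
    (ha : w0 + w1 * a + w2 * a ^ 2 = 0) (hb : w0 + w1 * b + w2 * b ^ 2 = 0)
    (hc : w0 + w1 * c + w2 * c ^ 2 = 0) : w0 = 0 ∧ w1 = 0 ∧ w2 = 0 := by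
  have h1 : (w1 + w2 * (a + b)) * (a - b) = 0 := by linear_combination ha - hb
  have h2 : w1 + w2 * (a + b) = 0 := (mul_eq_zero.mp h1).resolve_right (sub_ne_zero.mpr hab)
  have h3 : (w1 + w2 * (a + c)) * (a - c) = 0 := by linear_combination ha - hc
  have h4 : w1 + w2 * (a + c) = 0 := (mul_eq_zero.mp h3).resolve_right (sub_ne_zero.mpr hac)
  have h5 : w2 * (b - c) = 0 := by linear_combination h2 - h4
  have h6 : w2 = 0 := (mul_eq_zero.mp h5).resolve_right (sub_ne_zero.mpr hbc)
  have h7 : w1 = 0 := by rw [h6] at h2; linear_combination h2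
  exact ⟨by rw [h6, h7] at ha; linear_combination ha, h7, h6⟩

theorem quad2 {a b w0 w1 w2 : F} (hab : a ≠ b) (ha : w0 + w1 * a + w2 * a ^ 2 = 0)
    (hb : w0 + w1 * b + w2 * b ^ 2 = 0) (h : w2 = 0) : w0 = 0 ∧ w1 = 0 ∧ w2 = 0 := by
  subst h
  have := lin2 hab (by linear_combination ha) (by linear_combination hb) (w0 := w0) (w1 := w1)
  exact ⟨this.1, this.2, rfl⟩

theorem quad2' {a b w0 w1 w2 : F} (h2 : (2 : F) = 0) (hab : a ≠ b)
    (ha : w0 + w1 * a + w2 * a ^ 2 = 0) (hb : w0 + w1 * b + w2 * b ^ 2 = 0) (h : w1 = 0) :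
    w0 = 0 ∧ w1 = 0 ∧ w2 = 0 := by
  subst h
  have h3 : w2 * (a - b) ^ 2 = 0 := by
    linear_combination ha - hb + (w2 * b ^ 2 - w2 * a * b) * h2
  have h4 : w2 = 0 :=
    (mul_eq_zero.mp h3).resolve_right (pow_ne_zero 2 (sub_ne_zero.mpr hab))
  exact ⟨by rw [h4] at ha; linear_combination ha, rfl, h4⟩

theorem quad1 {a w0 w1 w2 : F} (ha : w0 + w1 * a + w2 * a ^ 2 = 0) (h1 : w1 = 0)
    (h2 : w2 = 0) : w0 = 0 ∧ w1 = 0 ∧ w2 = 0 := by
  subst h1; subst h2
  exact ⟨by linear_combination ha, rfl, rfl⟩

theorem oa3 (hq : 2 ≤ Fintype.card F) :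
    HasOA (Fintype.card F) (Fintype.card F + 1) (Fintype.card F - 2) := by
  have h := hasOA_of_check (F := F) (ι := Option F) (r := 3) (k := Fintype.card F - 2) col3 ?_
    (by rw [Fintype.card_option]; omega)
  · rwa [Fintype.card_option] at h
  · intro U hU w hw
    obtain ⟨x, y, z, hxy, hxz, hyz, rfl⟩ := card_eq_three.mp hU
    have hx := hw x (by simp)
    have hy := hw y (by simp)
    have hz := hw z (by simp)
    have key : w 0 = 0 ∧ w 1 = 0 ∧ w 2 = 0 := by
      rcases x with _ | a <;> rcases y with _ | b <;> rcases z with _ | c <;>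
        simp only [q_none, q_some] at hx hy hz <;>
        first
        | exact absurd rfl hxy
        | exact absurd rfl hxz
        | exact absurd rfl hyz
        | exact quad3 (fun h => hxy (by rw [h])) (fun h => hxz (by rw [h]))
            (fun h => hyz (by rw [h])) hx hy hz
        | exact quad2 (fun h => hxy (by rw [h])) hx hy hz
        | exact quad2 (fun h => hxz (by rw [h])) hx hz hy
        | exact quad2 (fun h => hyz (by rw [h])) hy hz hx
    funext t
    fin_cases t
    · exact key.1
    · exact key.2.1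
    · exact key.2.2

theorem oa4 (h2 : (2 : F) = 0) :
    HasOA (Fintype.card F) (Fintype.card F + 2) (Fintype.card F - 1) := by
  have h1 : 0 < Fintype.card F := Fintype.card_pos
  have h := hasOA_of_check (F := F) (ι := Option (Option F)) (r := 3)
    (k := Fintype.card F - 1) col4 ?_
    (by rw [Fintype.card_option, Fintype.card_option]; omega)
  · rwa [Fintype.card_option, Fintype.card_option] at h
  · intro U hU w hw
    obtain ⟨x, y, z, hxy, hxz, hyz, rfl⟩ := card_eq_three.mp hU
    have hx := hw x (by simp)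
    have hy := hw y (by simp)
    have hz := hw z (by simp)
    have e1 : ∑ t, w t * col4 (some (none : Option F)) t = w 2 := q_none w
    have e2 : ∀ a : F, ∑ t, w t * col4 (some (some a)) t = w 0 + w 1 * a + w 2 * a ^ 2 :=
      fun a => q_some w a
    have key : w 0 = 0 ∧ w 1 = 0 ∧ w 2 = 0 := by
      rcases x with _ | _ | a <;> rcases y with _ | _ | b <;> rcases z with _ | _ | c <;>
        simp only [q_hyp, e1, e2] at hx hy hz <;>
        first
        | exact absurd rfl hxy
        | exact absurd rfl hxz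
        | exact absurd rfl hyz
        | exact quad3 (fun h => hxy (by rw [h])) (fun h => hxz (by rw [h]))
            (fun h => hyz (by rw [h])) hx hy hz
        | exact quad2 (fun h => hxy (by rw [h])) hx hy hz
        | exact quad2 (fun h => hxz (by rw [h])) hx hz hy
        | exact quad2 (fun h => hyz (by rw [h])) hy hz hx
        | exact quad2' h2 (fun h => hxy (by rw [h])) hx hy hz
        | exact quad2' h2 (fun h => hxz (by rw [h])) hx hz hy
        | exact quad2' h2 (fun h => hyz (by rw [h])) hy hz hx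
        | exact quad1 hx hy hz
        | exact quad1 hx hz hy
        | exact quad1 hy hx hz
        | exact quad1 hy hz hx
        | exact quad1 hz hx hy
        | exact quad1 hz hy hx
    funext t
    fin_cases t
    · exact key.1
    · exact key.2.1
    · exact key.2.2

end columns

end Pool.Agent.Helper64.OA
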