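import Pool.Agent.Helper64.OA.Upper3
import Pool.Agent.Helper64.OA.Lower

set_option autoImplicit false

/-!
# MP_159373_co (helper64): the exact values
-/

namespace Pool.Agent.Helper64.OA

theorem up_odd {q : ℕ} (ho : Odd q) (hq : 3 ≤ q) {n : ℕ} (h : HasOA q n (q - 1)) : n ≤ q + 1 := by
  by_contra hn
  obtain ⟨A, hA⟩ := arr_of_hasOA h (n' := q + 2) (by omega) (by omega)
  have h2 := odd_case hA (by rw [Fintype.card_fin]; omega) (by rw [Fintype.card_fin]; omega)
    (by omega)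
  obtain ⟨m, hm⟩ := ho
  omega

theorem up_even {q : ℕ} (hq : 3 ≤ q) (h3 : ¬ 3 ∣ q) {n : ℕ} (h : HasOA q n (q - 1)) :
    n ≤ q + 2 := by
  by_contra hn
  obtain ⟨A, hA⟩ := arr_of_hasOA h (n' := q + 3) (by omega) (by omega)
  have h2 := three_case hA (by rw [Fintype.card_fin]; omega) (by rw [Fintype.card_fin]; omega)
    (by omega)
  rw [show q - 1 + 1 = q by omega] at h2
  exact h3 h2

theorem up_even' {q : ℕ} (he : Even q) (hq : 4 ≤ q) (h3 : ¬ 3 ∣ q) {n : ℕ}
    (h : HasOA q n (q - 2)) : n ≤ q + 1 := by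
  by_contra hn
  obtain ⟨A, hA⟩ := arr_of_hasOA h (n' := q + 2) (by omega) (by omega)
  obtain ⟨m, hm⟩ := he
  have h2 := four_case hA (by rw [Fintype.card_fin]; omega) (by rw [Fintype.card_fin]; omega)
    (by omega) (by omega)
  rw [show q - 2 + 2 = q by omega] at h2
  exact h3 h2

theorem not_three_dvd_two_pow (m : ℕ) : ¬ 3 ∣ 2 ^ m := by
  intro h
  have := (Nat.prime_dvd_prime_iff_eq Nat.prime_three Nat.prime_two).mp
    (Nat.prime_three.dvd_of_dvd_pow h)
  omega

theorem exists_field {q : ℕ} (hq : IsPrimePow q) :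
    ∃ (F : Type) (_ : Field F) (_ : Fintype F), Fintype.card F = q := by
  classical
  obtain ⟨p, m, hp, hm, rfl⟩ := (isPrimePow_nat_iff _).mp hq
  haveI : Fact p.Prime := ⟨hp⟩
  haveI : Fintype (GaloisField p m) := Fintype.ofFinite _
  refine ⟨GaloisField p m, inferInstance, inferInstance, ?_⟩
  rw [← Nat.card_eq_fintype_card, GaloisField.card p m (by omega)]

theorem exact_odd {q : ℕ} (hq : IsPrimePow q) (ho : Odd q) :
    IsGreatest {n : ℕ | HasOA q n (q - 1)} (q + 1) := by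
  classical
  have h3 : 3 ≤ q := by
    have := hq.two_le
    obtain ⟨m, hm⟩ := ho
    omega
  refine ⟨?_, fun n hn => up_odd ho h3 hn⟩
  obtain ⟨F, _, _, hF⟩ := exists_field hq
  have := oa2 (F := F)
  rw [hF] at this
  exact this

theorem exact_two {m : ℕ} (hm : 2 ≤ m) :
    IsGreatest {n : ℕ | HasOA (2 ^ m) n (2 ^ m - 1)} (2 ^ m + 2) ∧
      IsGreatest {n : ℕ | HasOA (2 ^ m) n (2 ^ m - 2)} (2 ^ m + 1) := by
  classical
  have h4 : 4 ≤ 2 ^ m := by
    calc 4 = 2 ^ 2 := by norm_num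
      _ ≤ 2 ^ m := Nat.pow_le_pow_right (by norm_num) hm
  have he : Even (2 ^ m) := by
    rw [Nat.even_pow]
    exact ⟨even_two, by omega⟩
  have h3 := not_three_dvd_two_pow m
  haveI : Fact (Nat.Prime 2) := ⟨Nat.prime_two⟩
  haveI : Fintype (GaloisField 2 m) := Fintype.ofFinite _
  have hF : Fintype.card (GaloisField 2 m) = 2 ^ m := by
    rw [← Nat.card_eq_fintype_card, GaloisField.card 2 m (by omega)]
  have h20 : (2 : GaloisField 2 m) = 0 := by
    have := CharP.cast_eq_zero (GaloisField 2 m) 2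
    exact_mod_cast this
  refine ⟨⟨?_, fun n hn => up_even (by omega) h3 hn⟩, ?_, fun n hn => up_even' he h4 h3 hn⟩
  · have := oa4 (F := GaloisField 2 m) h20
    rw [hF] at this
    exact this
  · have := oa3 (F := GaloisField 2 m) (by rw [hF]; omega)
    rw [hF] at this
    exact this

end Pool.Agent.Helper64.OA
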