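import Mathlib

set_option autoImplicit false
set_option linter.unusedSectionVars false

/-!
# MP_159373_co (helper64): orthogonal arrays of index one and strength close to the number of
symbols, upper bounds for the number of columns.
-/

namespace Pool.Agent.Helper64.OA

open Finset

/-- general form of an orthogonal array of index one: rows `R`, columns `I`, symbols `S` -/
def Arr {R I S : Type} (k : ℕ) (A : R → I → S) : Prop :=
  ∀ T : Finset I, T.card = k → ∀ v : I → S, ∃! r, ∀ i ∈ T, A r i = v i

section
variable {R I S : Type} [Fintype I] [DecidableEq I] [Fintype S] [DecidableEq S]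
  {k : ℕ} {A : R → I → S}

/-- positions where the row `r` differs from the word `x` -/
def dis (A : R → I → S) (x : I → S) (r : R) : Finset I := univ.filter (fun i => A r i ≠ x i)

theorem mem_dis {x : I → S} {r : R} {i : I} : i ∈ dis A x r ↔ A r i ≠ x i := by
  simp [dis]

theorem notMem_dis {x : I → S} {r : R} {i : I} : i ∉ dis A x r ↔ A r i = x i := by
  simp [dis]

/-- the word `x`, restricted to `T`, is within distance one of a row -/
def cov (A : R → I → S) (T : Finset I) (x : I → S) : Prop := ∃ r, (dis A x r ∩ T).card ≤ 1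

theorem eq_of_agree (hA : Arr k A) {r r' : R} {T : Finset I} (hT : k ≤ T.card)
    (h : ∀ i ∈ T, A r i = A r' i) : r = r' := by
  obtain ⟨U, hU, hUc⟩ := exists_subset_card_eq hT
  exact (hA U hUc (A r')).unique (fun i hi => h i (hU hi)) (fun i _ => rfl)

theorem eq_of_union (hA : Arr k A) {x : I → S} {r r' : R} {T : Finset I}
    (h : k + ((dis A x r ∪ dis A x r') ∩ T).card ≤ T.card) : r = r' := by
  refine eq_of_agree hA (T := T \ (dis A x r ∪ dis A x r')) ?_ ?_
  · have := card_sdiff_add_card_inter T (dis A x r ∪ dis A x r')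
    rw [inter_comm] at this
    omega
  · intro i hi
    rw [mem_sdiff, mem_union, not_or, notMem_dis, notMem_dis] at hi
    rw [hi.2.1, hi.2.2]

theorem card_union_gt (hA : Arr k A) {x : I → S} {r r' : R} (h : r ≠ r') (T : Finset I) :
    T.card < k + ((dis A x r ∪ dis A x r') ∩ T).card := by
  by_contra hc
  exact h (eq_of_union hA (not_lt.mp hc))

/-- the covering lemma -/
theorem cov_card (hA : Arr k A) {T : Finset I} (hT : T.card = k + 2) {j : I} (hj : j ∈ T)
    {x : I → S} (hno : ¬ ∃ r, ∀ i ∈ T.erase j, A r i = x i) [DecidablePred fun b : S =>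
      cov A T (Function.update x j b)] :
    (univ.filter (fun b : S => cov A T (Function.update x j b))).card = k + 1 := by
  classical
  have hex : ∀ m ∈ T.erase j, ∃ r, ∀ i ∈ (T.erase j).erase m, A r i = x i := by
    intro m hm
    have hc : ((T.erase j).erase m).card = k := by
      rw [card_erase_of_mem hm, card_erase_of_mem hj, hT]; omega
    exact (hA _ hc x).exists
  have hR : Nonempty R := by
    obtain ⟨U, _, hUc⟩ := exists_subset_card_eq (show k ≤ T.card by omega)
    obtain ⟨r, _⟩ := (hA U hUc x).exists
    exact ⟨r⟩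
  choose! ρ hρ using hex
  have hdis : ∀ m ∈ T.erase j, A (ρ m) m ≠ x m := by
    intro m hm h
    apply hno
    refine ⟨ρ m, fun i hi => ?_⟩
    by_cases him : i = m
    · rw [him]; exact h
    · exact hρ m hm i (mem_erase.mpr ⟨him, hi⟩)
  have hinj : Set.InjOn (fun m => A (ρ m) j) (T.erase j : Finset I) := by
    intro m hm m' hm' h
    by_contra hne
    have hm1 : m ∈ T.erase j := hm
    have hm1' : m' ∈ T.erase j := hm'
    have heq : ρ m = ρ m' := by
      refine eq_of_agree hA (T := insert j (((T.erase j).erase m).erase m')) ?_ ?_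
      · rw [card_insert_of_notMem, card_erase_of_mem, card_erase_of_mem hm1,
          card_erase_of_mem hj, hT]
        · omega
        · exact mem_erase.mpr ⟨Ne.symm hne, hm1'⟩
        · intro hh
          exact (mem_erase.mp (mem_of_mem_erase (mem_of_mem_erase hh))).1 rfl
      · intro i hi
        rw [mem_insert] at hi
        rcases hi with rfl | hi
        · exact h
        · have h1 : i ∈ (T.erase j).erase m := mem_of_mem_erase hi
          have h2 : i ∈ (T.erase j).erase m' :=
            mem_erase.mpr ⟨(mem_erase.mp hi).1, mem_of_mem_erase h1⟩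
          rw [hρ m hm1 i h1, hρ m' hm1' i h2]
    apply hdis m hm1
    rw [heq]
    exact hρ m' hm1' m (mem_erase.mpr ⟨hne, hm1⟩)
  have himg : univ.filter (fun b : S => cov A T (Function.update x j b)) =
      (T.erase j).image (fun m => A (ρ m) j) := by
    ext b
    simp only [mem_filter, mem_univ, true_and, mem_image]
    constructor
    · rintro ⟨r, hr⟩
      -- a disagreement in T.erase j
      have h1 : ∃ m ∈ T.erase j, A r m ≠ x m := by
        by_contra hcon
        push Not at hcon
        exact hno ⟨r, hcon⟩
      obtain ⟨m, hm, hmx⟩ := h1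
      have hmj : m ≠ j := (mem_erase.mp hm).1
      have hmT : m ∈ T := mem_of_mem_erase hm
      have hmd : m ∈ dis A (Function.update x j b) r ∩ T := by
        refine mem_inter.mpr ⟨mem_dis.mpr ?_, hmT⟩
        rw [Function.update_of_ne hmj]; exact hmx
      have hall : ∀ i ∈ T, i ≠ m → A r i = Function.update x j b i := by
        intro i hi him
        by_contra hcon
        exact him (card_le_one.mp hr i (mem_inter.mpr ⟨mem_dis.mpr hcon, hi⟩) m hmd)
      have hrm : r = ρ m := by
        have hc : ((T.erase j).erase m).card = k := by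
          rw [card_erase_of_mem hm, card_erase_of_mem hj, hT]; omega
        refine (hA _ hc x).unique ?_ (hρ m hm)
        intro i hi
        have hij : i ≠ j := (mem_erase.mp (mem_of_mem_erase hi)).1
        rw [hall i (mem_of_mem_erase (mem_of_mem_erase hi)) (mem_erase.mp hi).1,
          Function.update_of_ne hij]
      refine ⟨m, hm, ?_⟩
      rw [← hrm, hall j hj (Ne.symm hmj), Function.update_self]
    · rintro ⟨m, hm, hb⟩
      refine ⟨ρ m, ?_⟩
      refine card_le_one.mpr ?_
      have hall : ∀ i ∈ dis A (Function.update x j b) (ρ m) ∩ T, i = m := by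
        intro i hi
        by_contra him
        rw [mem_inter, mem_dis] at hi
        by_cases hij : i = j
        · rw [hij, Function.update_self] at hi
          exact hi.1 hb
        · rw [Function.update_of_ne hij] at hi
          exact hi.1 (hρ m hm i (mem_erase.mpr ⟨him, mem_erase.mpr ⟨hij, hi.2⟩⟩))
      intro a ha b' hb'
      rw [hall a ha, hall b' hb']
  rw [himg, card_image_of_injOn hinj, card_erase_of_mem hj, hT]
  omega

/-- restriction to `k+2` columns is a perfect code if there are `k+1` symbols -/
theorem cov_all (hA : Arr k A) (hS : Fintype.card S = k + 1) {T : Finset I}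
    (hT : T.card = k + 2) (x : I → S) : cov A T x := by
  classical
  have hne : T.Nonempty := by
    rw [← card_pos, hT]; omega
  obtain ⟨j, hj⟩ := hne
  by_cases hno : ∃ r, ∀ i ∈ T.erase j, A r i = x i
  · obtain ⟨r, hr⟩ := hno
    refine ⟨r, card_le_one.mpr ?_⟩
    have hall : ∀ i ∈ dis A x r ∩ T, i = j := by
      intro i hi
      rw [mem_inter, mem_dis] at hi
      by_contra hij
      exact hi.1 (hr i (mem_erase.mpr ⟨hij, hi.2⟩))
    intro a ha b hb
    rw [hall a ha, hall b hb]
  · have h1 := cov_card hA hT hj hno
    rw [← hS] at h1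
    have h2 := (card_eq_iff_eq_univ _).mp h1
    have h3 : x j ∈ univ.filter (fun b : S => cov A T (Function.update x j b)) := by
      rw [h2]; exact mem_univ _
    rw [mem_filter, Function.update_eq_self] at h3
    exact h3.2

theorem dvd_card_of_fibers {α β : Type} [DecidableEq β] (s : Finset α) (f : α → β) (d : ℕ)
    (h : ∀ a ∈ s, (s.filter (fun x => f x = f a)).card = d) : d ∣ s.card := by
  rw [card_eq_sum_card_image f s, sum_congr rfl (g := fun _ => d), sum_const, smul_eq_mul]
  · exact dvd_mul_left _ _
  · intro b hb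
    obtain ⟨a, ha, rfl⟩ := mem_image.mp hb
    exact h a ha

/-- if every pair of `V` that is covered outside lies in a triple, 6 divides the number of
ordered covered pairs -/
theorem six_dvd (hA : Arr k A) (hI : Fintype.card I = k + 4) (V : Finset I) (x : I → S)
    [DecidablePred fun p : I × I => cov A ((univ.erase p.1).erase p.2) x]
    (hV : ∀ i ∈ V, ∀ l ∈ V, i ≠ l → cov A ((univ.erase i).erase l) x →
      ∃ r, (dis A x r).card = 3 ∧ i ∈ dis A x r ∧ l ∈ dis A x r ∧ dis A x r ⊆ V) :
    6 ∣ (V.offDiag.filter (fun p => cov A ((univ.erase p.1).erase p.2) x)).card := by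
  classical
  by_cases hR : Nonempty R
  swap
  · have : V.offDiag.filter (fun p => cov A ((univ.erase p.1).erase p.2) x) = ∅ := by
      refine filter_eq_empty_iff.mpr ?_
      rintro p _ ⟨r, _⟩
      exact hR ⟨r⟩
    rw [this]; simp
  have hex : ∀ p : I × I, ∃ r : R, p ∈ V.offDiag.filter
      (fun p => cov A ((univ.erase p.1).erase p.2) x) →
      (dis A x r).card = 3 ∧ p.1 ∈ dis A x r ∧ p.2 ∈ dis A x r ∧ dis A x r ⊆ V := by
    intro p
    by_cases hp : p ∈ V.offDiag.filter (fun p => cov A ((univ.erase p.1).erase p.2) x)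
    · rw [mem_filter, mem_offDiag] at hp
      obtain ⟨r, hr⟩ := hV p.1 hp.1.1 p.2 hp.1.2.1 hp.1.2.2 hp.2
      exact ⟨r, fun _ => hr⟩
    · exact ⟨hR.some, fun h => absurd h hp⟩
  choose f hf using hex
  refine dvd_card_of_fibers _ f 6 ?_
  intro p hp
  obtain ⟨h3, hp1, hp2, hsub⟩ := hf p hp
  have hfib : (V.offDiag.filter (fun p => cov A ((univ.erase p.1).erase p.2) x)).filter
      (fun y => f y = f p) = (dis A x (f p)).offDiag := by
    ext y
    rw [mem_filter, mem_offDiag]
    constructor
    · rintro ⟨hy, hyf⟩
      obtain ⟨_, hy1, hy2, _⟩ := hf y hy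
      rw [hyf] at hy1 hy2
      rw [mem_filter, mem_offDiag] at hy
      exact ⟨hy1, hy2, hy.1.2.2⟩
    · rintro ⟨hy1, hy2, hne⟩
      have hcov : cov A ((univ.erase y.1).erase y.2) x := by
        refine ⟨f p, ?_⟩
        have hsub' : dis A x (f p) ∩ ((univ.erase y.1).erase y.2) ⊆
            ((dis A x (f p)).erase y.1).erase y.2 := by
          intro i hi
          rw [mem_inter, mem_erase, mem_erase] at hi
          exact mem_erase.mpr ⟨hi.2.1, mem_erase.mpr ⟨hi.2.2.1, hi.1⟩⟩
        refine (card_le_card hsub').trans ?_
        rw [card_erase_of_mem (mem_erase.mpr ⟨Ne.symm hne, hy2⟩), card_erase_of_mem hy1, h3]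
      have hy : y ∈ V.offDiag.filter (fun p => cov A ((univ.erase p.1).erase p.2) x) := by
        rw [mem_filter, mem_offDiag]
        exact ⟨⟨hsub hy1, hsub hy2, hne⟩, hcov⟩
      refine ⟨hy, ?_⟩
      obtain ⟨h3', hy1', hy2', _⟩ := hf y hy
      refine eq_of_union hA (x := x) (T := univ) ?_
      rw [inter_univ, card_univ, hI]
      have h4 := card_union_add_card_inter (dis A x (f y)) (dis A x (f p))
      have h5 : 2 ≤ (dis A x (f y) ∩ dis A x (f p)).card := by
        have : ({y.1, y.2} : Finset I) ⊆ dis A x (f y) ∩ dis A x (f p) := by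
          intro i hi
          rw [mem_insert, mem_singleton] at hi
          rcases hi with rfl | rfl
          · exact mem_inter.mpr ⟨hy1', hy1⟩
          · exact mem_inter.mpr ⟨hy2', hy2⟩
        have h6 := card_le_card this
        rwa [card_pair hne] at h6
      omega
  rw [hfib, offDiag_card, h3]

end

end Pool.Agent.Helper64.OA
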