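import Pool.Agent.Helper64.OA.Upper

set_option autoImplicit false
set_option linter.unusedSectionVars false

/-!
# MP_159373_co (helper64): the four nonexistence statements
-/

namespace Pool.Agent.Helper64.OA

open Finset

section
variable {R I S : Type} [Fintype I] [DecidableEq I] [Fintype S] [DecidableEq S]
  {k : ℕ} {A : R → I → S}

theorem exists_word (hS : 2 ≤ Fintype.card S) (r : R) {a b : I} (hab : a ≠ b) :
    ∃ x : I → S, dis A x r = {a, b} := by
  have hne : ∀ s : S, ∃ t, t ≠ s := by
    intro s
    have h1 : 1 < Fintype.card S := hS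
    have := Fintype.exists_ne_of_one_lt_card h1 s
    obtain ⟨t, ht⟩ := this
    exact ⟨t, ht⟩
  obtain ⟨s, hs⟩ := hne (A r a)
  obtain ⟨t, ht⟩ := hne (A r b)
  refine ⟨Function.update (Function.update (A r) a s) b t, ?_⟩
  ext i
  rw [mem_dis, mem_insert, mem_singleton]
  by_cases hb : i = b
  · subst hb
    simp only [Function.update_self, ne_eq, or_true, iff_true]
    exact fun h => ht h.symm
  · rw [Function.update_of_ne hb]
    by_cases ha : i = a
    · subst ha
      simp only [Function.update_self, ne_eq, true_or, iff_true]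
      exact fun h => hs h.symm
    · rw [Function.update_of_ne ha]
      simp [ha, hb]

theorem exists_row (hA : Arr k A) (hI : k ≤ Fintype.card I) [Nonempty S] : Nonempty R := by
  obtain ⟨U, _, hUc⟩ := exists_subset_card_eq (show k ≤ (univ : Finset I).card by
    rw [card_univ]; exact hI)
  obtain ⟨r, _⟩ := (hA U hUc (fun _ => Classical.arbitrary S)).exists
  exact ⟨r⟩

/-- strength `q-1` and `q+2` columns force `q` to be even -/
theorem odd_case (hA : Arr k A) (hI : Fintype.card I = k + 3) (hS : Fintype.card S = k + 1)
    (hk : 1 ≤ k) : 2 ∣ k + 3 := by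
  classical
  have hSn : Nonempty S := Fintype.card_pos_iff.mp (by omega)
  obtain ⟨r₀⟩ := exists_row hA (by omega)
  obtain ⟨a, b, hab⟩ := Fintype.exists_pair_of_one_lt_card (show 1 < Fintype.card I by omega)
  obtain ⟨x, hx⟩ := exists_word (A := A) (by omega) r₀ hab
  have h2 : ∀ r, 2 ≤ (dis A x r).card := by
    intro r
    by_cases hr : r = r₀
    · rw [hr, hx, card_pair hab]
    · have h1 := card_union_gt hA (x := x) hr univ
      rw [hx, inter_univ, card_univ, hI] at h1
      have h3 := card_union_le (dis A x r) {a, b}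
      rw [card_pair hab] at h3
      omega
  have hcov : ∀ i : I, cov A (univ.erase i) x := fun i =>
    cov_all hA hS (by rw [card_erase_of_mem (mem_univ i), card_univ, hI]; omega) x
  choose f hf using hcov
  have hmem : ∀ i, i ∈ dis A x (f i) ∧ (dis A x (f i)).card = 2 := by
    intro i
    have h1 := hf i
    have h3 : dis A x (f i) ∩ univ.erase i = (dis A x (f i)).erase i := by
      ext l; simp [and_comm]
    rw [h3] at h1
    by_cases hi : i ∈ dis A x (f i)
    · rw [card_erase_of_mem hi] at h1
      have := h2 (f i)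
      exact ⟨hi, by omega⟩
    · rw [erase_eq_of_notMem hi] at h1
      have := h2 (f i)
      omega
  have hd := dvd_card_of_fibers (univ : Finset I) f 2 (by
    intro i _
    have : univ.filter (fun y => f y = f i) = dis A x (f i) := by
      ext y
      simp only [mem_filter, mem_univ, true_and]
      constructor
      · intro h
        rw [← h]; exact (hmem y).1
      · intro h
        refine eq_of_union hA (x := x) (T := univ) ?_
        rw [inter_univ, card_univ, hI]
        have h4 := card_union_add_card_inter (dis A x (f y)) (dis A x (f i))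
        have h5 : 1 ≤ (dis A x (f y) ∩ dis A x (f i)).card :=
          card_pos.mpr ⟨y, mem_inter.mpr ⟨(hmem y).1, h⟩⟩
        rw [(hmem y).2, (hmem i).2] at h4
        omega
    rw [this]
    exact (hmem i).2)
  rwa [card_univ, hI] at hd

/-- pairs covered outside, for a word at distance two from a row -/
theorem tripleA (hA : Arr k A) (hI : Fintype.card I = k + 4) {a b : I} (hab : a ≠ b)
    {x : I → S} {r₀ : R} (hx : dis A x r₀ = {a, b}) :
    ∀ i ∈ ({a, b} : Finset I)ᶜ, ∀ l ∈ ({a, b} : Finset I)ᶜ, i ≠ l →
      cov A ((univ.erase i).erase l) x →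
      ∃ r, (dis A x r).card = 3 ∧ i ∈ dis A x r ∧ l ∈ dis A x r ∧
        dis A x r ⊆ ({a, b} : Finset I)ᶜ := by
  intro i hi l hl hil ⟨r, hr⟩
  have h0 : dis A x r ∩ ((univ.erase i).erase l) = ((dis A x r).erase i).erase l := by
    ext y; simp only [mem_inter, mem_erase, mem_univ, and_true]; tauto
  rw [h0] at hr
  rw [mem_compl, mem_insert, mem_singleton, not_or] at hi hl
  have hne : r ≠ r₀ := by
    intro h
    rw [h, hx] at hr
    have : (({a, b} : Finset I).erase i).erase l = {a, b} := by
      rw [erase_eq_of_notMem, erase_eq_of_notMem]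
      · simp [hi.1, hi.2]
      · simp [hl.1, hl.2]
    rw [this, card_pair hab] at hr
    omega
  have h1 := card_union_gt hA (x := x) hne univ
  rw [hx, inter_univ, card_univ, hI] at h1
  have h2 := card_union_add_card_inter (dis A x r) {a, b}
  rw [card_pair hab] at h2
  have h3 : (dis A x r).card ≤ (((dis A x r).erase i).erase l).card + 2 := by
    have e1 := pred_card_le_card_erase (s := dis A x r) (a := i)
    have e2 := pred_card_le_card_erase (s := (dis A x r).erase i) (a := l)
    omega
  have h4 : (dis A x r).card = 3 := by omega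
  have h5 : (dis A x r ∩ {a, b}).card = 0 := by omega
  have hi' : i ∈ dis A x r := by
    by_contra hc
    rw [erase_eq_of_notMem hc] at hr
    have e2 := pred_card_le_card_erase (s := dis A x r) (a := l)
    omega
  have hl' : l ∈ dis A x r := by
    by_contra hc
    have : l ∉ (dis A x r).erase i := fun h => hc (mem_of_mem_erase h)
    rw [erase_eq_of_notMem this] at hr
    have e2 := pred_card_le_card_erase (s := dis A x r) (a := i)
    omega
  refine ⟨r, h4, hi', hl', ?_⟩
  intro y hy
  rw [mem_compl]
  intro hc
  have : y ∈ dis A x r ∩ {a, b} := mem_inter.mpr ⟨hy, hc⟩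
  rw [card_eq_zero.mp h5] at this
  exact absurd this (notMem_empty y)

theorem tripleB {x : I → S} (h3 : ∀ r, 3 ≤ (dis A x r).card) :
    ∀ i ∈ (univ : Finset I), ∀ l ∈ (univ : Finset I), i ≠ l →
      cov A ((univ.erase i).erase l) x →
      ∃ r, (dis A x r).card = 3 ∧ i ∈ dis A x r ∧ l ∈ dis A x r ∧
        dis A x r ⊆ (univ : Finset I) := by
  intro i _ l _ _ ⟨r, hr⟩
  have h0 : dis A x r ∩ ((univ.erase i).erase l) = ((dis A x r).erase i).erase l := by
    ext y; simp only [mem_inter, mem_erase, mem_univ, and_true]; tauto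
  rw [h0] at hr
  have h4 := h3 r
  have e1 := pred_card_le_card_erase (s := dis A x r) (a := i)
  have e2 := pred_card_le_card_erase (s := (dis A x r).erase i) (a := l)
  refine ⟨r, by omega, ?_, ?_, subset_univ _⟩
  · by_contra hc
    rw [erase_eq_of_notMem hc] at hr
    have e2 := pred_card_le_card_erase (s := dis A x r) (a := l)
    omega
  · by_contra hc
    have : l ∉ (dis A x r).erase i := fun h => hc (mem_of_mem_erase h)
    rw [erase_eq_of_notMem this] at hr
    omega

/-- a word on all columns but `j`, and the rows at distance two from it -/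
theorem few_values [Fintype R] (hA : Arr k A) (hI : Fintype.card I = k + 4) {j : I}
    {x : I → S} : 2 * (univ.filter
      (fun r => (dis A x r ∩ univ.erase j).card = 2)).card ≤ k + 3 := by
  classical
  have h1 : ((univ.filter (fun r => (dis A x r ∩ univ.erase j).card = 2)).biUnion
      (fun r => dis A x r ∩ univ.erase j)).card =
      ∑ r ∈ univ.filter (fun r => (dis A x r ∩ univ.erase j).card = 2),
        (dis A x r ∩ univ.erase j).card := by
    refine card_biUnion ?_
    intro r hr r' hr' hne
    rw [mem_coe, mem_filter] at hr hr'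
    show Disjoint (dis A x r ∩ univ.erase j) (dis A x r' ∩ univ.erase j)
    have h2 := card_union_gt hA (x := x) hne (univ.erase j)
    rw [card_erase_of_mem (mem_univ j), card_univ, hI, union_inter_distrib_right] at h2
    have h3 := card_union_add_card_inter (dis A x r ∩ univ.erase j) (dis A x r' ∩ univ.erase j)
    rw [disjoint_iff_inter_eq_empty, ← card_eq_zero]
    omega
  rw [sum_congr rfl (g := fun _ => 2) (fun r hr => (mem_filter.mp hr).2), sum_const,
    smul_eq_mul] at h1
  have h2 : ((univ.filter (fun r => (dis A x r ∩ univ.erase j).card = 2)).biUnion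
      (fun r => dis A x r ∩ univ.erase j)) ⊆ univ.erase j := by
    intro y hy
    obtain ⟨r, _, hr⟩ := mem_biUnion.mp hy
    exact (mem_inter.mp hr).2
  have h3 := card_le_card h2
  rw [card_erase_of_mem (mem_univ j), card_univ, hI] at h3
  omega

theorem far_word {j : I} {x : I → S} {b : S}
    (h2 : ∀ r, 2 ≤ (dis A x r ∩ univ.erase j).card)
    (hb : ∀ r, (dis A x r ∩ univ.erase j).card = 2 → A r j ≠ b) (r : R) :
    3 ≤ (dis A (Function.update x j b) r).card := by
  have h1 : dis A (Function.update x j b) r ∩ univ.erase j = dis A x r ∩ univ.erase j := by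
    ext i
    simp only [mem_inter, mem_erase, mem_univ, and_true, mem_dis]
    constructor
    · rintro ⟨hi, hij⟩
      rw [Function.update_of_ne hij] at hi
      exact ⟨hi, hij⟩
    · rintro ⟨hi, hij⟩
      rw [Function.update_of_ne hij]
      exact ⟨hi, hij⟩
  have h3 := h2 r
  rw [← h1] at h3
  by_cases h4 : (dis A x r ∩ univ.erase j).card = 2
  · have h5 : j ∈ dis A (Function.update x j b) r := by
      rw [mem_dis, Function.update_self]
      exact hb r h4
    have h6 : dis A (Function.update x j b) r ∩ univ.erase j =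
        (dis A (Function.update x j b) r).erase j := by
      ext l; simp [and_comm]
    rw [h6, card_erase_of_mem h5] at h3
    omega
  · have h7 := h2 r
    have h8 : 3 ≤ (dis A (Function.update x j b) r ∩ univ.erase j).card := by
      rw [h1]; omega
    exact h8.trans (card_le_card inter_subset_left)

theorem two_le (hA : Arr k A) (hI : Fintype.card I = k + 4) {a b j : I} (hab : a ≠ b)
    (haj : a ≠ j) (hbj : b ≠ j) {x : I → S} {r₀ : R} (hx : dis A x r₀ = {a, b}) (r : R) :
    2 ≤ (dis A x r ∩ univ.erase j).card := by
  by_cases hr : r = r₀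
  · rw [hr, hx]
    have : ({a, b} : Finset I) ∩ univ.erase j = {a, b} := by
      rw [inter_eq_left]
      intro i hi
      rw [mem_insert, mem_singleton] at hi
      rcases hi with rfl | rfl
      · exact mem_erase.mpr ⟨haj, mem_univ _⟩
      · exact mem_erase.mpr ⟨hbj, mem_univ _⟩
    rw [this, card_pair hab]
  · have h1 := card_union_gt hA (x := x) hr univ
    rw [hx, inter_univ, card_univ, hI] at h1
    have h2 := card_union_le (dis A x r) {a, b}
    rw [card_pair hab] at h2
    have h3 : dis A x r ∩ univ.erase j = (dis A x r).erase j := by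
      ext l; simp [and_comm]
    have e1 := pred_card_le_card_erase (s := dis A x r) (a := j)
    rw [h3]
    omega

theorem exists_three (hI : 3 ≤ Fintype.card I) : ∃ a b j : I, a ≠ b ∧ a ≠ j ∧ b ≠ j := by
  have h : 2 < (univ : Finset I).card := by rw [card_univ]; omega
  obtain ⟨a, b, c, _, _, _, h1, h2, h3⟩ := two_lt_card_iff.mp h
  exact ⟨a, b, c, h1, h2, h3⟩

/-- strength `q-1` and `q+3` columns force `3 ∣ q` -/
theorem three_case [Fintype R] (hA : Arr k A) (hI : Fintype.card I = k + 4)
    (hS : Fintype.card S = k + 1) (hk : 2 ≤ k) : 3 ∣ k + 1 := by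
  classical
  have hSn : Nonempty S := Fintype.card_pos_iff.mp (by omega)
  obtain ⟨r₀⟩ := exists_row hA (by omega)
  obtain ⟨a, b, j, hab, haj, hbj⟩ := exists_three (I := I) (by omega)
  obtain ⟨x, hx⟩ := exists_word (A := A) (by omega) r₀ hab
  have hcov : ∀ (y : I → S) (i l : I), i ≠ l → cov A ((univ.erase i).erase l) y := by
    intro y i l hil
    refine cov_all hA hS ?_ y
    rw [card_erase_of_mem (mem_erase.mpr ⟨Ne.symm hil, mem_univ l⟩),
      card_erase_of_mem (mem_univ i), card_univ, hI]
    omega
  have hfil : ∀ (y : I → S) (V : Finset I),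
      V.offDiag.filter (fun p => cov A ((univ.erase p.1).erase p.2) y) = V.offDiag := by
    intro y V
    refine filter_true_of_mem (fun p hp => ?_)
    exact hcov y p.1 p.2 (mem_offDiag.mp hp).2.2
  -- step A
  have hA1 := six_dvd hA hI ({a, b} : Finset I)ᶜ x (tripleA hA hI hab hx)
  rw [hfil, offDiag_card, card_compl, card_pair hab, hI] at hA1
  -- step B
  have h2 := two_le hA hI hab haj hbj hx
  have hfew := few_values hA hI (j := j) (x := x)
  obtain ⟨b', hb'⟩ : ∃ b' : S, b' ∉ (univ.filter
      (fun r => (dis A x r ∩ univ.erase j).card = 2)).image (fun r => A r j) := by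
    by_contra hcon
    push Not at hcon
    have h3 : Fintype.card S ≤ ((univ.filter
      (fun r => (dis A x r ∩ univ.erase j).card = 2)).image (fun r => A r j)).card := by
      rw [← card_univ]
      exact card_le_card (fun s _ => hcon s)
    have h4 := card_image_le (s := univ.filter
      (fun r => (dis A x r ∩ univ.erase j).card = 2)) (f := fun r => A r j)
    omega
  have h3 : ∀ r, 3 ≤ (dis A (Function.update x j b') r).card :=
    far_word h2 (fun r hr h => hb' (mem_image.mpr ⟨r, mem_filter.mpr ⟨mem_univ _, hr⟩, h⟩))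
  have hB1 := six_dvd hA hI (univ : Finset I) (Function.update x j b') (tripleB h3)
  rw [hfil, offDiag_card, card_univ, hI] at hB1
  -- arithmetic
  have e1 : (k + 4 - 2) * (k + 4 - 2) - (k + 4 - 2) = (k + 2) * (k + 1) := by
    have : k + 4 - 2 = k + 2 := by omega
    rw [this, Nat.sub_eq_iff_eq_add (Nat.le_mul_self _)]
    ring
  have e2 : (k + 4) * (k + 4) - (k + 4) = (k + 4) * (k + 3) := by
    rw [Nat.sub_eq_iff_eq_add (Nat.le_mul_self _)]
    ring
  rw [e1] at hA1
  rw [e2] at hB1
  have p3 : Nat.Prime 3 := Nat.prime_three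
  have d1 : 3 ∣ (k + 2) * (k + 1) := (by norm_num : 3 ∣ 6).trans hA1
  have d2 : 3 ∣ (k + 4) * (k + 3) := (by norm_num : 3 ∣ 6).trans hB1
  rcases (Nat.Prime.dvd_mul p3).mp d1 with h | h
  · rcases (Nat.Prime.dvd_mul p3).mp d2 with h' | h' <;> omega
  · exact h

end

end Pool.Agent.Helper64.OA
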