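import Pool.Agent.Helper64.OA.Upper2

set_option autoImplicit false
set_option linter.unusedSectionVars false

/-!
# MP_159373_co (helper64): strength `q-2`, `q` even, `q+2` columns
-/

namespace Pool.Agent.Helper64.OA

open Finset

section
variable {R I S : Type} [Fintype I] [DecidableEq I] [Fintype S] [DecidableEq S]
  {k : ℕ} {A : R → I → S}

open Classical in
/-- uncovered deletions -/
noncomputable def unc (A : R → I → S) (T : Finset I) (x : I → S) : Finset I :=
  T.filter (fun j => ¬ cov A (T.erase j) x)

theorem mem_unc {T : Finset I} {x : I → S} {j : I} :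
    j ∈ unc A T x ↔ j ∈ T ∧ ¬ cov A (T.erase j) x := by
  classical
  unfold unc
  rw [mem_filter]

theorem covered_row {T : Finset I} {x : I → S} (h2 : ∀ r, 2 ≤ (dis A x r ∩ T).card) {j : I}
    (_ : j ∈ T) {r : R} (hr : (dis A x r ∩ T.erase j).card ≤ 1) :
    j ∈ dis A x r ∩ T ∧ (dis A x r ∩ T).card = 2 := by
  have h1 : dis A x r ∩ T.erase j = (dis A x r ∩ T).erase j := by
    ext i; simp only [mem_inter, mem_erase]; tauto
  rw [h1] at hr
  have h3 := h2 r
  by_cases hc : j ∈ dis A x r ∩ T
  · rw [card_erase_of_mem hc] at hr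
    exact ⟨hc, by omega⟩
  · rw [erase_eq_of_notMem hc] at hr
    omega

/-- parity: the number of covered deletions is even -/
theorem unc_parity (hA : Arr k A) {T : Finset I} (hT : T.card = k + 3) {x : I → S}
    (h2 : ∀ r, 2 ≤ (dis A x r ∩ T).card) : 2 ∣ T.card - (unc A T x).card := by
  classical
  by_cases hR : Nonempty R
  swap
  · have : unc A T x = T := by
      ext j
      rw [mem_unc]
      exact ⟨fun h => h.1, fun h => ⟨h, fun ⟨r, _⟩ => hR ⟨r⟩⟩⟩
    rw [this, Nat.sub_self]
    exact dvd_zero 2
  have hcard : T.card - (unc A T x).card = (T.filter (fun j => cov A (T.erase j) x)).card := by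
    have := card_filter_add_card_filter_not (s := T) (fun j => cov A (T.erase j) x)
    have h3 : (unc A T x).card = (T.filter (fun j => ¬ cov A (T.erase j) x)).card := rfl
    omega
  rw [hcard]
  have hex : ∀ j : I, ∃ r : R, j ∈ T.filter (fun j => cov A (T.erase j) x) →
      (dis A x r ∩ T.erase j).card ≤ 1 := by
    intro j
    by_cases hj : j ∈ T.filter (fun j => cov A (T.erase j) x)
    · obtain ⟨r, hr⟩ := (mem_filter.mp hj).2
      exact ⟨r, fun _ => hr⟩
    · exact ⟨hR.some, fun h => absurd h hj⟩
  choose f hf using hex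
  refine dvd_card_of_fibers _ f 2 ?_
  intro j hj
  have hjT := (mem_filter.mp hj).1
  obtain ⟨hj1, hj2⟩ := covered_row h2 hjT (hf j hj)
  have hfib : (T.filter (fun j => cov A (T.erase j) x)).filter (fun y => f y = f j) =
      dis A x (f j) ∩ T := by
    ext y
    rw [mem_filter]
    constructor
    · rintro ⟨hy, hyf⟩
      have := covered_row h2 (mem_filter.mp hy).1 (hf y hy)
      rw [hyf] at this
      exact this.1
    · intro hy
      have hyT := (mem_inter.mp hy).2
      have hcov : (dis A x (f j) ∩ T.erase y).card ≤ 1 := by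
        have h1 : dis A x (f j) ∩ T.erase y = (dis A x (f j) ∩ T).erase y := by
          ext i; simp only [mem_inter, mem_erase]; tauto
        rw [h1, card_erase_of_mem hy, hj2]
      have hy' : y ∈ T.filter (fun j => cov A (T.erase j) x) :=
        mem_filter.mpr ⟨hyT, ⟨f j, hcov⟩⟩
      refine ⟨hy', ?_⟩
      obtain ⟨hy1, hy2⟩ := covered_row h2 hyT (hf y hy')
      refine eq_of_union hA (x := x) (T := T) ?_
      rw [union_inter_distrib_right]
      have h4 := card_union_add_card_inter (dis A x (f y) ∩ T) (dis A x (f j) ∩ T)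
      have h5 : 1 ≤ ((dis A x (f y) ∩ T) ∩ (dis A x (f j) ∩ T)).card :=
        card_pos.mpr ⟨y, mem_inter.mpr ⟨hy1, hy⟩⟩
      omega
  rw [hfib]
  exact hj2

/-- if some row is at distance two on `T` then exactly one deletion is uncovered -/
theorem unc_one (hA : Arr k A) (hS : Fintype.card S = k + 2) (hk : 2 ∣ k) {T : Finset I}
    (hT : T.card = k + 3) {x : I → S} {c : R} (hc : (dis A x c ∩ T).card = 2) :
    (unc A T x).card = 1 := by
  classical
  obtain ⟨m, m', hmm, hset⟩ := card_eq_two.mp hc
  have hm : m ∈ dis A x c ∩ T := by rw [hset]; simp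
  have hm' : m' ∈ dis A x c ∩ T := by rw [hset]; simp
  have hmT := (mem_inter.mp hm).2
  have hmT' := (mem_inter.mp hm').2
  have hmx := mem_dis.mp (mem_inter.mp hm).1
  have hmx' := mem_dis.mp (mem_inter.mp hm').1
  -- the words obtained by changing position m
  set y : S → I → S := fun b => Function.update x m b with hy
  have hdc : ∀ b, b ≠ A c m → dis A (y b) c ∩ T = {m, m'} := by
    intro b hb
    rw [← hset]
    ext i
    simp only [mem_inter, mem_dis, hy]
    by_cases him : i = m
    · subst him
      rw [Function.update_self]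
      exact ⟨fun _ => ⟨hmx, hmT⟩, fun _ => ⟨Ne.symm hb, hmT⟩⟩
    · rw [Function.update_of_ne him]
  have h2 : ∀ b, b ≠ A c m → ∀ r, 2 ≤ (dis A (y b) r ∩ T).card := by
    intro b hb r
    by_cases hr : r = c
    · rw [hr, hdc b hb, card_pair hmm]
    · have h1 := card_union_gt hA (x := y b) hr T
      rw [union_inter_distrib_right, hdc b hb] at h1
      have h3 := card_union_le (dis A (y b) r ∩ T) {m, m'}
      rw [card_pair hmm] at h3
      omega
  have hsub : ∀ b, b ≠ A c m → unc A T (y b) ⊆ (T.erase m).erase m' := by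
    intro b hb j hj
    rw [mem_unc] at hj
    have hcovm : ∀ l ∈ ({m, m'} : Finset I), cov A (T.erase l) (y b) := by
      intro l hl
      refine ⟨c, ?_⟩
      have h1 : dis A (y b) c ∩ T.erase l = ({m, m'} : Finset I).erase l := by
        rw [← hdc b hb]
        ext i; simp only [mem_inter, mem_erase]; tauto
      rw [h1, card_erase_of_mem hl, card_pair hmm]
    refine mem_erase.mpr ⟨?_, mem_erase.mpr ⟨?_, hj.1⟩⟩
    · intro h
      exact hj.2 (h ▸ hcovm m' (by simp))
    · intro h
      exact hj.2 (h ▸ hcovm m (by simp))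
  have hge : ∀ b, b ≠ A c m → 1 ≤ (unc A T (y b)).card := by
    intro b hb
    have h1 := unc_parity hA hT (h2 b hb)
    have h3 : (unc A T (y b)).card ≤ T.card := card_le_card (filter_subset _ _)
    omega
  -- column count
  have hcol : ∀ j ∈ (T.erase m).erase m',
      (univ.filter (fun b : S => ¬ cov A (T.erase j) (y b))).card = 1 := by
    intro j hj
    have hjm' : j ≠ m' := (mem_erase.mp hj).1
    have hjm : j ≠ m := (mem_erase.mp (mem_of_mem_erase hj)).1
    have hjT : j ∈ T := mem_of_mem_erase (mem_of_mem_erase hj)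
    have hcT : (T.erase j).card = k + 2 := by
      rw [card_erase_of_mem hjT, hT]; omega
    have hno : ¬ ∃ r, ∀ i ∈ (T.erase j).erase m, A r i = x i := by
      rintro ⟨r, hr⟩
      have hm1 : m' ∈ (T.erase j).erase m :=
        mem_erase.mpr ⟨Ne.symm hmm, mem_erase.mpr ⟨Ne.symm hjm', hmT'⟩⟩
      have hrc : r = c := by
        refine eq_of_agree hA (T := ((T.erase j).erase m).erase m') ?_ ?_
        · rw [card_erase_of_mem hm1, card_erase_of_mem (mem_erase.mpr ⟨Ne.symm hjm, hmT⟩), hcT]
          omega
        · intro i hi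
          rw [hr i (mem_of_mem_erase hi)]
          have hi1 : i ∉ dis A x c ∩ T := by
            rw [hset, mem_insert, mem_singleton, not_or]
            exact ⟨(mem_erase.mp (mem_of_mem_erase hi)).1, (mem_erase.mp hi).1⟩
          have hi2 : i ∈ T := mem_of_mem_erase (mem_of_mem_erase (mem_of_mem_erase hi))
          by_contra hcon
          exact hi1 (mem_inter.mpr ⟨mem_dis.mpr (Ne.symm hcon), hi2⟩)
      apply hmx'
      rw [← hrc]
      exact hr m' hm1
    have h1 := cov_card hA hcT (mem_erase.mpr ⟨Ne.symm hjm, hmT⟩) hno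
    have h3 := card_filter_add_card_filter_not (s := (univ : Finset S))
      (fun b => cov A (T.erase j) (y b))
    rw [card_univ, hS] at h3
    have h4 : (univ.filter (fun b : S => cov A (T.erase j) (y b))).card = k + 1 := h1
    omega
  -- double counting
  have hsum : ∑ b ∈ univ.erase (A c m), (unc A T (y b)).card ≤ k + 1 := by
    have e1 : ∀ b ∈ univ.erase (A c m), (unc A T (y b)).card =
        ∑ j ∈ (T.erase m).erase m', if ¬ cov A (T.erase j) (y b) then 1 else 0 := by
      intro b hb
      have hb' := (mem_erase.mp hb).1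
      rw [← card_filter]
      congr 1
      ext j
      rw [mem_filter, mem_unc]
      constructor
      · intro h
        exact ⟨hsub b hb' (mem_unc.mpr h), h.2⟩
      · rintro ⟨h, h'⟩
        exact ⟨mem_of_mem_erase (mem_of_mem_erase h), h'⟩
    rw [sum_congr rfl e1, sum_comm]
    have e2 : ∀ j ∈ (T.erase m).erase m', (∑ b ∈ univ.erase (A c m),
        if ¬ cov A (T.erase j) (y b) then 1 else 0) ≤ 1 := by
      intro j hj
      rw [← card_filter, ← hcol j hj]
      exact card_le_card (filter_subset_filter _ (erase_subset _ _))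
    refine (sum_le_sum e2).trans ?_
    rw [sum_const, smul_eq_mul, mul_one,
      card_erase_of_mem (mem_erase.mpr ⟨Ne.symm hmm, hmT'⟩), card_erase_of_mem hmT, hT]
    omega
  have hb0 : x m ∈ univ.erase (A c m) := mem_erase.mpr ⟨Ne.symm hmx, mem_univ _⟩
  have hyx : y (x m) = x := by rw [hy]; exact Function.update_eq_self m x
  rw [← add_sum_erase _ _ hb0, hyx] at hsum
  have hlow : k ≤ ∑ b ∈ (univ.erase (A c m)).erase (x m), (unc A T (y b)).card := by
    have e3 : ∑ b ∈ (univ.erase (A c m)).erase (x m), 1 ≤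
        ∑ b ∈ (univ.erase (A c m)).erase (x m), (unc A T (y b)).card :=
      sum_le_sum (fun b hb => hge b (mem_erase.mp (mem_of_mem_erase hb)).1)
    rw [sum_const, smul_eq_mul, mul_one, card_erase_of_mem hb0,
      card_erase_of_mem (mem_univ _), card_univ, hS] at e3
    omega
  have hge0 := hge (x m) (Ne.symm hmx)
  rw [hyx] at hge0
  omega

/-- the number of ordered uncovered pairs in `V` -/
theorem unc_pairs {V : Finset I} {x : I → S}
    [DecidablePred fun p : I × I => cov A ((univ.erase p.1).erase p.2) x]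
    (h1 : ∀ i ∈ V, (unc A (univ.erase i) x).card = 1)
    (h2 : ∀ i ∈ V, unc A (univ.erase i) x ⊆ V) :
    (V.offDiag.filter (fun p => ¬ cov A ((univ.erase p.1).erase p.2) x)).card = V.card := by
  classical
  have hmap : Set.MapsTo Prod.fst
      (V.offDiag.filter (fun p => ¬ cov A ((univ.erase p.1).erase p.2) x) : Set (I × I)) V := by
    intro p hp
    have hp' := mem_filter.mp (mem_coe.mp hp)
    exact (mem_offDiag.mp hp'.1).1
  rw [card_eq_sum_card_fiberwise hmap]
  have e1 : ∀ i ∈ V, ((V.offDiag.filter
      (fun p => ¬ cov A ((univ.erase p.1).erase p.2) x)).filter (fun p => p.1 = i)).card = 1 := by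
    intro i hi
    rw [← h1 i hi, ← card_image_of_injective (unc A (univ.erase i) x)
      (f := fun l => (i, l)) (fun l l' h => (Prod.mk.inj h).2)]
    congr 1
    ext p
    rw [mem_filter, mem_filter, mem_offDiag, mem_image]
    constructor
    · rintro ⟨⟨⟨hp1, hp2, hne⟩, hunc⟩, hpi⟩
      refine ⟨p.2, ?_, ?_⟩
      · rw [mem_unc, mem_erase, ← hpi]
        exact ⟨⟨Ne.symm hne, mem_univ _⟩, hunc⟩
      · rw [← hpi]
    · rintro ⟨l, hl, rfl⟩
      have hlV := h2 i hi hl
      rw [mem_unc, mem_erase] at hl
      exact ⟨⟨⟨hi, hlV, Ne.symm hl.1.1⟩, hl.2⟩, rfl⟩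
  rw [sum_congr rfl e1, sum_const, smul_eq_mul, mul_one]

theorem six_dvd' (hA : Arr k A) (hI : Fintype.card I = k + 4) (V : Finset I) (x : I → S)
    (h1 : ∀ i ∈ V, (unc A (univ.erase i) x).card = 1)
    (h2 : ∀ i ∈ V, unc A (univ.erase i) x ⊆ V)
    (hV : ∀ i ∈ V, ∀ l ∈ V, i ≠ l → cov A ((univ.erase i).erase l) x →
      ∃ r, (dis A x r).card = 3 ∧ i ∈ dis A x r ∧ l ∈ dis A x r ∧ dis A x r ⊆ V) :
    6 ∣ V.card * V.card - V.card - V.card := by
  classical
  have e1 := six_dvd hA hI V x hV
  have e2 := unc_pairs (A := A) h1 h2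
  have e3 := card_filter_add_card_filter_not (s := V.offDiag)
    (fun p => cov A ((univ.erase p.1).erase p.2) x)
  rw [e2, offDiag_card] at e3
  have e4 : V.card * V.card - V.card - V.card =
      (V.offDiag.filter (fun p => cov A ((univ.erase p.1).erase p.2) x)).card := by omega
  rw [e4]
  exact e1

/-- strength `q-2`, `q` even, and `q+2` columns force `3 ∣ q` -/
theorem four_case [Fintype R] (hA : Arr k A) (hI : Fintype.card I = k + 4)
    (hS : Fintype.card S = k + 2) (hk : 2 ≤ k) (hk2 : 2 ∣ k) : 3 ∣ k + 2 := by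
  classical
  have hSn : Nonempty S := Fintype.card_pos_iff.mp (by omega)
  obtain ⟨r₀⟩ := exists_row hA (by omega)
  obtain ⟨a, b, j, hab, haj, hbj⟩ := exists_three (I := I) (by omega)
  obtain ⟨x, hx⟩ := exists_word (A := A) (by omega) r₀ hab
  have hcard : ∀ i : I, (univ.erase i).card = k + 3 := by
    intro i
    rw [card_erase_of_mem (mem_univ i), card_univ, hI]; omega
  -- step A
  have hA1 : 6 ∣ (k + 2) * (k + 2) - (k + 2) - (k + 2) := by
    have hdi : ∀ i ∈ ({a, b} : Finset I)ᶜ, dis A x r₀ ∩ univ.erase i = {a, b} := by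
      intro i hi
      rw [mem_compl, mem_insert, mem_singleton, not_or] at hi
      rw [hx, inter_eq_left]
      intro l hl
      rw [mem_insert, mem_singleton] at hl
      rcases hl with rfl | rfl
      · exact mem_erase.mpr ⟨Ne.symm hi.1, mem_univ _⟩
      · exact mem_erase.mpr ⟨Ne.symm hi.2, mem_univ _⟩
    have h := six_dvd' hA hI ({a, b} : Finset I)ᶜ x (fun i hi => ?_) (fun i hi => ?_)
      (tripleA hA hI hab hx)
    · rwa [card_compl, card_pair hab, hI] at h
    · exact unc_one hA hS hk2 (hcard i) (c := r₀) (by rw [hdi i hi, card_pair hab])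
    · intro l hl
      rw [mem_unc] at hl
      rw [mem_compl]
      intro hc
      apply hl.2
      refine ⟨r₀, ?_⟩
      have h1 : dis A x r₀ ∩ (univ.erase i).erase l = ({a, b} : Finset I).erase l := by
        rw [← hdi i hi]
        ext y; simp only [mem_inter, mem_erase]; tauto
      rw [h1, card_erase_of_mem hc, card_pair hab]
  -- step B: the word on all columns but j
  have h2 := two_le hA hI hab haj hbj hx
  have hfew := few_values hA hI (j := j) (x := x)
  set B : Finset R := univ.filter (fun r => (dis A x r ∩ univ.erase j).card = 2) with hB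
  have hr0B : r₀ ∈ B := by
    rw [hB, mem_filter]
    refine ⟨mem_univ _, ?_⟩
    have : ({a, b} : Finset I) ∩ univ.erase j = {a, b} := by
      rw [inter_eq_left]
      intro i hi
      rw [mem_insert, mem_singleton] at hi
      rcases hi with rfl | rfl
      · exact mem_erase.mpr ⟨haj, mem_univ _⟩
      · exact mem_erase.mpr ⟨hbj, mem_univ _⟩
    rw [hx, this, card_pair hab]
  obtain ⟨i0, hi0⟩ := card_eq_one.mp
    (unc_one hA hS hk2 (hcard j) (c := r₀) (mem_filter.mp hr0B).2)
  have hi0' : i0 ∈ unc A (univ.erase j) x := by rw [hi0]; exact mem_singleton_self _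
  rw [mem_unc] at hi0'
  have hi0j : i0 ≠ j := (mem_erase.mp hi0'.1).1
  -- two admissible values
  obtain ⟨b₁, b₂, hb₁, hb₂, hb12⟩ : ∃ b₁ b₂ : S, b₁ ∉ B.image (fun r => A r j) ∧
      b₂ ∉ B.image (fun r => A r j) ∧ b₁ ≠ b₂ := by
    have h3 : 1 < ((B.image (fun r => A r j))ᶜ).card := by
      rw [card_compl, hS]
      have h4 := card_image_le (s := B) (f := fun r => A r j)
      omega
    obtain ⟨b₁, hb₁, b₂, hb₂, hne⟩ := one_lt_card.mp h3
    exact ⟨b₁, b₂, mem_compl.mp hb₁, mem_compl.mp hb₂, hne⟩
  have h3 : ∀ b' : S, b' ∉ B.image (fun r => A r j) →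
      ∀ r, 3 ≤ (dis A (Function.update x j b') r).card := fun b' hb' =>
    far_word h2 (fun r hr h => hb' (mem_image.mpr ⟨r, mem_filter.mpr ⟨mem_univ _, hr⟩, h⟩))
  -- one of them is good
  have hgood : ∃ b' : S, b' ∉ B.image (fun r => A r j) ∧
      ∃ r, (dis A (Function.update x j b') r ∩ univ.erase i0).card = 2 := by
    by_contra hcon
    push Not at hcon
    -- another position
    obtain ⟨j', hj'⟩ : ∃ j' : I, j' ∈ (univ.erase i0).erase j := by
      refine card_pos.mp ?_
      rw [card_erase_of_mem (mem_erase.mpr ⟨Ne.symm hi0j, mem_univ _⟩), hcard]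
      omega
    have hj'j : j' ≠ j := (mem_erase.mp hj').1
    have hj'i : j' ≠ i0 := (mem_erase.mp (mem_of_mem_erase hj')).1
    have hTc : ((univ.erase i0).erase j').card = k + 2 := by
      rw [card_erase_of_mem (mem_erase.mpr ⟨hj'i, mem_univ _⟩), hcard]; omega
    have hjT : j ∈ (univ.erase i0).erase j' :=
      mem_erase.mpr ⟨Ne.symm hj'j, mem_erase.mpr ⟨Ne.symm hi0j, mem_univ _⟩⟩
    have hno : ¬ ∃ r, ∀ i ∈ ((univ.erase i0).erase j').erase j, A r i = x i := by
      rintro ⟨r, hr⟩
      apply hi0'.2
      refine ⟨r, ?_⟩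
      refine card_le_one.mpr ?_
      have hall : ∀ i ∈ dis A x r ∩ (univ.erase j).erase i0, i = j' := by
        intro i hi
        rw [mem_inter, mem_erase, mem_erase, mem_dis] at hi
        by_contra hcc
        exact hi.1 (hr i (mem_erase.mpr ⟨hi.2.2.1, mem_erase.mpr ⟨hcc,
          mem_erase.mpr ⟨hi.2.1, mem_univ _⟩⟩⟩))
      intro u hu v hv
      rw [hall u hu, hall v hv]
    have hcc := cov_card hA hTc hjT hno
    have hsplit := card_filter_add_card_filter_not (s := (univ : Finset S))
      (fun b' => cov A ((univ.erase i0).erase j') (Function.update x j b'))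
    rw [card_univ, hS, hcc] at hsplit
    have hbad : ∀ b' : S, b' ∉ B.image (fun r => A r j) →
        b' ∈ univ.filter (fun b' => ¬ cov A ((univ.erase i0).erase j')
          (Function.update x j b')) := by
      intro b' hb'
      rw [mem_filter]
      refine ⟨mem_univ _, ?_⟩
      rintro ⟨r, hr⟩
      have e1 := h3 b' hb' r
      have e2 := hcon b' hb' r
      have e3 : dis A (Function.update x j b') r ∩ univ.erase i0 =
          (dis A (Function.update x j b') r).erase i0 := by
        ext l; simp [and_comm]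
      have e4 : dis A (Function.update x j b') r ∩ (univ.erase i0).erase j' =
          (dis A (Function.update x j b') r ∩ univ.erase i0).erase j' := by
        ext l; simp only [mem_inter, mem_erase]; tauto
      have e5 := pred_card_le_card_erase (s := dis A (Function.update x j b') r) (a := i0)
      have e6 := pred_card_le_card_erase
        (s := dis A (Function.update x j b') r ∩ univ.erase i0) (a := j')
      rw [e4] at hr
      rw [← e3] at e5
      omega
    have h5 : 1 < (univ.filter (fun b' => ¬ cov A ((univ.erase i0).erase j')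
          (Function.update x j b'))).card :=
      one_lt_card.mpr ⟨b₁, hbad b₁ hb₁, b₂, hbad b₂ hb₂, hb12⟩
    omega
  obtain ⟨b', hb', rg, hrg⟩ := hgood
  have h3' := h3 b' hb'
  -- every position lies in a triple
  have htri : ∀ i : I, ∃ r, (dis A (Function.update x j b') r ∩ univ.erase i).card = 2 := by
    -- rows of B give triples containing j
    have hBrow : ∀ r ∈ B, dis A (Function.update x j b') r =
        insert j (dis A x r ∩ univ.erase j) := by
      intro r hr
      ext i
      rw [mem_insert, mem_inter, mem_erase]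
      by_cases hij : i = j
      · rw [hij]
        simp only [true_or, iff_true]
        rw [mem_dis, Function.update_self]
        exact fun h => hb' (mem_image.mpr ⟨r, hr, h⟩)
      · rw [mem_dis, Function.update_of_ne hij, mem_dis]
        simp [hij]
    intro i
    by_cases hii : i = i0
    · rw [hii]; exact ⟨rg, hrg⟩
    · have hBi : ∃ r ∈ B, i ∈ insert j (dis A x r ∩ univ.erase j) := by
        by_cases hij : i = j
        · exact ⟨r₀, hr0B, by rw [hij]; exact mem_insert_self _ _⟩
        · have hcov : cov A ((univ.erase j).erase i) x := by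
            by_contra hc
            have : i ∈ unc A (univ.erase j) x :=
              mem_unc.mpr ⟨mem_erase.mpr ⟨hij, mem_univ _⟩, hc⟩
            rw [hi0, mem_singleton] at this
            exact hii this
          obtain ⟨r, hr⟩ := hcov
          obtain ⟨h5, h6⟩ := covered_row h2 (mem_erase.mpr ⟨hij, mem_univ _⟩) hr
          exact ⟨r, mem_filter.mpr ⟨mem_univ _, h6⟩, mem_insert_of_mem h5⟩
      obtain ⟨r, hrB, hir⟩ := hBi
      refine ⟨r, ?_⟩
      have e3 : dis A (Function.update x j b') r ∩ univ.erase i =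
          (dis A (Function.update x j b') r).erase i := by
        ext l; simp [and_comm]
      rw [e3, hBrow r hrB, card_erase_of_mem hir, card_insert_of_notMem,
        (mem_filter.mp hrB).2]
      intro h
      exact (mem_erase.mp (mem_inter.mp h).2).1 rfl
  have hB1 : 6 ∣ (k + 4) * (k + 4) - (k + 4) - (k + 4) := by
    have h := six_dvd' hA hI (univ : Finset I) (Function.update x j b')
      (fun i _ => ?_) (fun i _ => subset_univ _) (tripleB h3')
    · rwa [card_univ, hI] at h
    · obtain ⟨r, hr⟩ := htri i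
      exact unc_one hA hS hk2 (hcard i) (c := r) hr
  -- arithmetic
  have e1 : (k + 2) * (k + 2) - (k + 2) - (k + 2) = (k + 2) * k := by
    rw [Nat.sub_sub, Nat.sub_eq_iff_eq_add (by nlinarith)]
    ring
  have e2 : (k + 4) * (k + 4) - (k + 4) - (k + 4) = (k + 4) * (k + 2) := by
    rw [Nat.sub_sub, Nat.sub_eq_iff_eq_add (by nlinarith)]
    ring
  rw [e1] at hA1
  rw [e2] at hB1
  have p3 : Nat.Prime 3 := Nat.prime_three
  have d1 : 3 ∣ (k + 2) * k := (by norm_num : 3 ∣ 6).trans hA1
  have d2 : 3 ∣ (k + 4) * (k + 2) := (by norm_num : 3 ∣ 6).trans hB1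
  rcases (Nat.Prime.dvd_mul p3).mp d1 with h | h
  · exact h
  · rcases (Nat.Prime.dvd_mul p3).mp d2 with h' | h' <;> omega

end

end Pool.Agent.Helper64.OA
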